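import Pool.Agent.Y159.TG.Stm

/-! TG-GROW: the size of the values of an integer polynomial. -/

set_option autoImplicit false

namespace Pool.Agent.Y495.TG

open Polynomial Finset

theorem grow : Pool.Agent.Y159.TG.TaskGrow := by
  intro f hn
  obtain ⟨m, hm⟩ : ∃ m, f.natDegree = m + 1 := ⟨f.natDegree - 1, by omega⟩
  have hlead : (1 : ℝ) ≤ |((f.coeff (m + 1) : ℤ) : ℝ)| := by
    have h0 : f.coeff (m + 1) ≠ 0 := by
      have h1 : f ≠ 0 := by
        rintro rfl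
        simp at hn
      rw [← hm]
      exact leadingCoeff_ne_zero.2 h1
    have h2 : (1 : ℤ) ≤ |f.coeff (m + 1)| := Int.one_le_abs h0
    exact_mod_cast h2
  set G : ℝ := ∑ i ∈ range (m + 2), |((f.coeff i : ℤ) : ℝ)| with hG
  have hsplit : G = ∑ i ∈ range (m + 1), |((f.coeff i : ℤ) : ℝ)| +
      |((f.coeff (m + 1) : ℤ) : ℝ)| := by
    rw [hG, Finset.sum_range_succ]
  have hpos : 0 ≤ ∑ i ∈ range (m + 1), |((f.coeff i : ℤ) : ℝ)| :=
    Finset.sum_nonneg fun i _ => abs_nonneg _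
  have hG1 : 1 ≤ G := by linarith
  have heval : ∀ t : ℤ, ((f.eval t : ℤ) : ℝ) =
      ∑ i ∈ range (m + 2), ((f.coeff i : ℤ) : ℝ) * (t : ℝ) ^ i := by
    intro t
    rw [eval_eq_sum_range, hm]
    push_cast
    rfl
  refine ⟨2 * G, G, by linarith, hG1, fun t => ⟨fun ht => ?_, fun ht => ?_⟩⟩
  · rw [heval, hm, hG, Finset.sum_mul]
    refine (Finset.abs_sum_le_sum_abs _ _).trans (Finset.sum_le_sum fun i hi => ?_)
    rw [abs_mul, abs_pow]
    apply mul_le_mul_of_nonneg_left _ (abs_nonneg _)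
    apply pow_le_pow_right₀ ht
    have := Finset.mem_range.1 hi
    omega
  · have ht1 : 1 ≤ |(t : ℝ)| := by linarith
    rw [heval, hm, Finset.sum_range_succ]
    set R : ℝ := ∑ i ∈ range (m + 1), ((f.coeff i : ℤ) : ℝ) * (t : ℝ) ^ i with hR
    have h1 : |R| ≤ G * |(t : ℝ)| ^ m := by
      calc |R| ≤ ∑ i ∈ range (m + 1), |((f.coeff i : ℤ) : ℝ) * (t : ℝ) ^ i| :=
            Finset.abs_sum_le_sum_abs _ _
        _ ≤ ∑ i ∈ range (m + 1), |((f.coeff i : ℤ) : ℝ)| * |(t : ℝ)| ^ m := by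
            refine Finset.sum_le_sum fun i hi => ?_
            rw [abs_mul, abs_pow]
            apply mul_le_mul_of_nonneg_left _ (abs_nonneg _)
            apply pow_le_pow_right₀ ht1
            have := Finset.mem_range.1 hi
            omega
        _ = (∑ i ∈ range (m + 1), |((f.coeff i : ℤ) : ℝ)|) * |(t : ℝ)| ^ m := by
            rw [Finset.sum_mul]
        _ ≤ G * |(t : ℝ)| ^ m := by
            apply mul_le_mul_of_nonneg_right _ (by positivity)
            rw [hsplit]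
            linarith [abs_nonneg ((f.coeff (m + 1) : ℤ) : ℝ)]
    have h2 : |(t : ℝ)| ^ (m + 1) ≤ |((f.coeff (m + 1) : ℤ) : ℝ) * (t : ℝ) ^ (m + 1)| := by
      rw [abs_mul, abs_pow]
      nlinarith [pow_nonneg (abs_nonneg (t : ℝ)) (m + 1)]
    have h3 : 2 * (G * |(t : ℝ)| ^ m) ≤ |(t : ℝ)| ^ (m + 1) := by
      rw [pow_succ]
      nlinarith [pow_nonneg (abs_nonneg (t : ℝ)) m]
    have h4 : |((f.coeff (m + 1) : ℤ) : ℝ) * (t : ℝ) ^ (m + 1)| ≤
        |R + ((f.coeff (m + 1) : ℤ) : ℝ) * (t : ℝ) ^ (m + 1)| + |R| := by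
      have h5 : ((f.coeff (m + 1) : ℤ) : ℝ) * (t : ℝ) ^ (m + 1) =
          (R + ((f.coeff (m + 1) : ℤ) : ℝ) * (t : ℝ) ^ (m + 1)) - R := by ring
      calc |((f.coeff (m + 1) : ℤ) : ℝ) * (t : ℝ) ^ (m + 1)| =
            |(R + ((f.coeff (m + 1) : ℤ) : ℝ) * (t : ℝ) ^ (m + 1)) - R| := by rw [← h5]
        _ ≤ _ := abs_sub _ _
    linarith

end Pool.Agent.Y495.TG
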