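import Pool.Agent.Y159.TG.Stm

/-! TG-LS: the larger sieve of Gallagher. -/

set_option autoImplicit false

namespace Pool.Agent.Y495.TG

open Polynomial Finset

lemma log_bound (P : Finset ℕ) (hP : ∀ p ∈ P, p.Prime) (L : ℝ) (n : ℤ) (hn : n ≠ 0)
    (hnL : |(n : ℝ)| ≤ L) : ∑ p ∈ P, (if (p : ℤ) ∣ n then Real.log p else 0) ≤ Real.log L := by
  classical
  rw [← Finset.sum_filter]
  set Q := P.filter (fun p : ℕ => (p : ℤ) ∣ n) with hQ
  have h1 : ∏ p ∈ Q, p ∣ n.natAbs := by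
    apply Finset.prod_primes_dvd
    · intro p hp
      exact (hP p (Finset.mem_filter.1 hp).1).prime
    · intro p hp
      exact Int.natCast_dvd.1 (Finset.mem_filter.1 hp).2
  have h2 : ∏ p ∈ Q, p ≤ n.natAbs := Nat.le_of_dvd (Int.natAbs_pos.2 hn) h1
  have h3 : (0 : ℝ) < ((∏ p ∈ Q, p : ℕ) : ℝ) := by
    have : 0 < ∏ p ∈ Q, p := Finset.prod_pos fun p hp =>
      (hP p (Finset.mem_filter.1 hp).1).pos
    exact_mod_cast this
  have h4 : ((∏ p ∈ Q, p : ℕ) : ℝ) ≤ L := by
    have h5 : ((∏ p ∈ Q, p : ℕ) : ℝ) ≤ ((n.natAbs : ℕ) : ℝ) := by exact_mod_cast h2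
    have h6 : ((n.natAbs : ℕ) : ℝ) = |(n : ℝ)| := by
      rw [← Int.cast_abs, Int.abs_eq_natAbs]
      rfl
    linarith
  have h7 : ∑ p ∈ Q, Real.log p = Real.log ((∏ p ∈ Q, p : ℕ) : ℝ) := by
    push_cast
    rw [Real.log_prod]
    intro p hp
    have : 0 < p := (hP p (Finset.mem_filter.1 hp).1).pos
    exact_mod_cast this.ne'
  rw [h7]
  exact Real.log_le_log h3 h4

lemma pairs (S : Finset ℤ) (p : ℕ) (ν : ℝ)
    (h : ((S.image (fun a : ℤ => (a : ZMod p))).card : ℝ) ≤ ν) :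
    (S.card : ℝ) ^ 2 ≤ ν * ∑ a ∈ S, ∑ b ∈ S, (if (p : ℤ) ∣ a - b then (1 : ℝ) else 0) := by
  classical
  set I := S.image (fun a : ℤ => (a : ZMod p)) with hI
  set Z : ZMod p → ℝ := fun r => ((S.filter (fun a : ℤ => (a : ZMod p) = r)).card : ℝ) with hZ
  have hmap : ∀ a ∈ S, (a : ZMod p) ∈ I := fun a ha => Finset.mem_image_of_mem _ ha
  have h1 : (S.card : ℝ) = ∑ r ∈ I, Z r := by
    rw [Finset.card_eq_sum_card_fiberwise (f := fun a : ℤ => (a : ZMod p)) (t := I)
      (fun a ha => hmap a ha)]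
    push_cast
    rfl
  have h2 : ∑ a ∈ S, ∑ b ∈ S, (if (p : ℤ) ∣ a - b then (1 : ℝ) else 0) = ∑ r ∈ I, Z r ^ 2 := by
    have h3 : ∀ a ∈ S, ∑ b ∈ S, (if (p : ℤ) ∣ a - b then (1 : ℝ) else 0) = Z (a : ZMod p) := by
      intro a _
      rw [← Finset.sum_filter, Finset.sum_const, nsmul_eq_mul, mul_one]
      have h4 : S.filter (fun b => (p : ℤ) ∣ a - b) =
          S.filter (fun b : ℤ => (b : ZMod p) = (a : ZMod p)) := by
        apply Finset.filter_congr
        intro b _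
        rw [ZMod.intCast_eq_intCast_iff_dvd_sub]
      rw [h4]
    rw [Finset.sum_congr rfl h3, ← Finset.sum_fiberwise_of_maps_to (g := fun a : ℤ => (a : ZMod p))
      (t := I) (fun a ha => hmap a ha)]
    refine Finset.sum_congr rfl fun r _ => ?_
    have h5 : ∀ a ∈ S.filter (fun a : ℤ => (a : ZMod p) = r), Z (a : ZMod p) = Z r := by
      intro a ha
      rw [(Finset.mem_filter.1 ha).2]
    rw [Finset.sum_congr rfl h5, Finset.sum_const, nsmul_eq_mul, sq]
  rw [h2, h1]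
  have h6 := sq_sum_le_card_mul_sum_sq (s := I) (f := Z)
  refine h6.trans ?_
  exact mul_le_mul_of_nonneg_right h (Finset.sum_nonneg fun r _ => sq_nonneg _)

theorem ls : Pool.Agent.Y159.TG.TaskLS := by
  classical
  intro S L hL hS P ν hP
  rcases S.eq_empty_or_nonempty with hS0 | hS0
  · rw [hS0, Finset.card_empty, Nat.cast_zero, zero_mul]
    exact Finset.sum_nonneg fun p hp =>
      Real.log_nonneg (by exact_mod_cast (hP p hp).1.one_lt.le)
  have hZ : (0 : ℝ) < S.card := by exact_mod_cast hS0.card_pos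
  have hlogL : 0 ≤ Real.log L := Real.log_nonneg hL
  have h1 : ∀ p ∈ P, (S.card : ℝ) ^ 2 * (Real.log p / ν p) ≤ (S.card : ℝ) * Real.log p +
      ∑ a ∈ S, ∑ b ∈ S, (if a ≠ b then (if (p : ℤ) ∣ a - b then Real.log p else 0) else 0) := by
    intro p hp
    obtain ⟨hp1, hp2, hp3⟩ := hP p hp
    have hlog : 0 ≤ Real.log p := Real.log_nonneg (by exact_mod_cast hp1.one_lt.le)
    have h2 := pairs S p (ν p) hp3
    have h3 : (S.card : ℝ) ^ 2 * (Real.log p / ν p) ≤
        Real.log p * ∑ a ∈ S, ∑ b ∈ S, (if (p : ℤ) ∣ a - b then (1 : ℝ) else 0) := by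
      calc (S.card : ℝ) ^ 2 * (Real.log p / ν p) ≤
            (ν p * ∑ a ∈ S, ∑ b ∈ S, (if (p : ℤ) ∣ a - b then (1 : ℝ) else 0)) *
              (Real.log p / ν p) := mul_le_mul_of_nonneg_right h2 (by positivity)
        _ = _ := by
          field_simp
    refine h3.trans (le_of_eq ?_)
    rw [Finset.mul_sum]
    have h4 : ∀ a ∈ S, Real.log p * ∑ b ∈ S, (if (p : ℤ) ∣ a - b then (1 : ℝ) else 0) =
        Real.log p + ∑ b ∈ S, (if a ≠ b then (if (p : ℤ) ∣ a - b then Real.log p else 0)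
          else 0) := by
      intro a ha
      rw [Finset.mul_sum, ← Finset.add_sum_erase S _ ha, ← Finset.add_sum_erase S
        (fun b => if a ≠ b then (if (p : ℤ) ∣ a - b then Real.log p else 0) else 0) ha]
      have h5 : (if (p : ℤ) ∣ a - a then (1 : ℝ) else 0) = 1 := by
        rw [sub_self, if_pos (dvd_zero _)]
      have h6 : (if a ≠ a then (if (p : ℤ) ∣ a - a then Real.log p else 0) else 0) = 0 :=
        if_neg (fun h => h rfl)
      rw [h5, h6, mul_one, zero_add]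
      congr 1
      refine Finset.sum_congr rfl fun b hb => ?_
      rw [if_pos (Finset.ne_of_mem_erase hb).symm]
      split_ifs
      · rw [mul_one]
      · rw [mul_zero]
    rw [Finset.sum_congr rfl h4, Finset.sum_add_distrib, Finset.sum_const, nsmul_eq_mul]
  have h2 : ∑ p ∈ P, ∑ a ∈ S, ∑ b ∈ S,
      (if a ≠ b then (if (p : ℤ) ∣ a - b then Real.log p else 0) else 0) ≤
      (S.card : ℝ) ^ 2 * Real.log L := by
    rw [Finset.sum_comm]
    have h3 : ∀ a ∈ S, ∑ p ∈ P, ∑ b ∈ S,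
        (if a ≠ b then (if (p : ℤ) ∣ a - b then Real.log p else 0) else 0) ≤
        (S.card : ℝ) * Real.log L := by
      intro a ha
      rw [Finset.sum_comm]
      have h4 : ∀ b ∈ S, ∑ p ∈ P,
          (if a ≠ b then (if (p : ℤ) ∣ a - b then Real.log p else 0) else 0) ≤ Real.log L := by
        intro b hb
        by_cases hab : a ≠ b
        · simp only [if_pos hab]
          exact log_bound P (fun p hp => (hP p hp).1) L (a - b) (sub_ne_zero.2 hab) (hS a ha b hb)
        · simp only [if_neg hab, Finset.sum_const_zero]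
          exact hlogL
      calc _ ≤ ∑ b ∈ S, Real.log L := Finset.sum_le_sum h4
        _ = _ := by rw [Finset.sum_const, nsmul_eq_mul]
    calc _ ≤ ∑ a ∈ S, (S.card : ℝ) * Real.log L := Finset.sum_le_sum h3
      _ = _ := by rw [Finset.sum_const, nsmul_eq_mul]; ring
  have h3 := Finset.sum_le_sum h1
  rw [Finset.sum_add_distrib, ← Finset.mul_sum, ← Finset.mul_sum] at h3
  have h4 : (S.card : ℝ) * ((S.card : ℝ) * (∑ p ∈ P, Real.log p / ν p - Real.log L)) ≤
      (S.card : ℝ) * ∑ p ∈ P, Real.log p := by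
    nlinarith
  exact le_of_mul_le_mul_left h4 hZ

end Pool.Agent.Y495.TG
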